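import Pool.Agent.H992.PM.Defs

/-!
# PM/BR: polynomial means as means over random frames (MP_a54f13_nt), for helper992
-/

set_option autoImplicit false
open MeasureTheory Filter Topology Complex
open scoped ContDiff ENNReal

namespace Pool.Agent.H800.PM

open Pool.Agent.W745.RW (TF)
open Pool.Agent.N661.BR (MW)
open Pool.Agent.N661.BH
open Pool.Agent.N814.BHM
open Pool.Agent.N814.BHASM
open Pool.Agent.H992.PM

noncomputable section

lemma hmv (lam : ℝ) (u : ℂ → ℝ) (z v : ℂ) : u (mv (1 / √lam) v z) = loc lam u z v := by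
  unfold loc mv
  congr 4
  ring

lemma xr_true {lam : ℝ} {u : ℂ → ℝ} {w z : ℂ} (hw : 1 / √lam * ‖w‖ < 1) (hz : z ∈ HP) (θ : ℝ) :
    Xr lam u w (z, (θ, true)) = loc lam u z (Complex.exp (θ * I) * w) := by
  unfold Xr
  rw [X_true hw hz, zpow_zero, one_mul, ← hmv]
  rfl

lemma xr_false {lam : ℝ} {u : ℂ → ℝ} {w z : ℂ} (hw : 1 / √lam * ‖w‖ < 1) (hz : z ∈ HP) (θ : ℝ) :
    Xr lam u w (z, (θ, false)) = loc lam u z (Complex.exp (θ * I) * starRingEnd ℂ w) := by
  unfold Xr
  rw [X_false hw hz, ← hmv]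
  simp only [Int.natAbs_zero, pow_zero, neg_zero, zpow_zero, one_mul]
  rfl

lemma g_meas {lam : ℝ} {u : ℂ → ℝ} (hu : ContDiffOn ℝ ∞ u HP) {k : ℕ} (w : Fin k → ℂ)
    (R : MvPolynomial (Fin k) ℝ) :
    Measurable fun p : ℂ × (ℝ × Bool) => MvPolynomial.eval (fun j => Xr lam u (w j) p) R := by
  have h1 : Measurable fun x : Fin k → ℝ => MvPolynomial.eval x R :=
    (MvPolynomial.continuous_eval R).measurable
  have h2 : Measurable fun p : ℂ × (ℝ × Bool) => fun j => Xr lam u (w j) p :=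
    measurable_pi_lambda _ fun j => Complex.measurable_re.comp (X_meas hu 0 (w j))
  exact h1.comp h2

lemma g_bdd {lam : ℝ} {u : ℂ → ℝ} (hu : ContDiffOn ℝ ∞ u HP) {k : ℕ} (w : Fin k → ℂ)
    (hw : ∀ j, 1 / √lam * ‖w j‖ < 1) (R : MvPolynomial (Fin k) ℝ) {K : Set ℂ}
    (hK : IsCompact K) (hKH : K ⊆ HP) :
    ∃ C : ℝ, 0 ≤ C ∧ ∀ p : ℂ × (ℝ × Bool), p.1 ∈ K →
      ‖MvPolynomial.eval (fun j => Xr lam u (w j) p) R‖ ≤ C := by
  have h := fun j => X_bdd hu 0 (hw j) hK hKH
  choose C hC0 hC using h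
  obtain ⟨D, hD⟩ := (isCompact_closedBall (0 : Fin k → ℝ) (∑ j, C j)).exists_bound_of_continuousOn
    (MvPolynomial.continuous_eval R).continuousOn
  refine ⟨max D 0, le_max_right _ _, fun p hp => (hD _ ?_).trans (le_max_left _ _)⟩
  rw [mem_closedBall_zero_iff, pi_norm_le_iff_of_nonneg (Finset.sum_nonneg fun j _ => hC0 j)]
  intro j
  have h1 : ‖Xr lam u (w j) p‖ ≤ C j := (Complex.abs_re_le_norm _).trans (hC j p hp)
  exact h1.trans (Finset.single_le_sum (f := C) (fun i _ => hC0 i) (Finset.mem_univ j))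

/-- **PM/BR** -/
theorem pb : S_PB := by
  intro Ω lam u H ψ hψ k w R
  have := probz H
  have := probP H
  have hsm : ∀ᶠ n in atTop, ∀ j, 1 / √(lam n) * ‖w j‖ < 1 :=
    Filter.eventually_all.2 fun j => small H (w j)
  filter_upwards [hsm] with n hn
  obtain ⟨C, hC⟩ := hψ.1.continuous.bounded_above_of_compact_support hψ.2.1
  have hC0 : 0 ≤ C := (norm_nonneg _).trans (hC 0)
  set G : ℂ × (ℝ × Bool) → ℝ := fun p =>
    MvPolynomial.eval (fun j => Xr (lam n) (u n) (w j) p) R with hG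
  have hGm : Measurable G := g_meas (H.sm n) w R
  have hψm : Measurable fun p : ℂ × (ℝ × Bool) => ψ p.1 :=
    hψ.1.continuous.measurable.comp measurable_fst
  obtain ⟨D, hD0, hD⟩ := g_bdd (H.sm n) w hn R hψ.2.1 (hψ.2.2.trans H.sub)
  have hi : Integrable (fun p : ℂ × (ℝ × Bool) => ψ p.1 * G p) (P Ω) := by
    refine Integrable.of_bound (hψm.mul hGm).aestronglyMeasurable (C * D)
      (Eventually.of_forall fun p => ?_)
    rw [norm_mul]
    by_cases hp : p.1 ∈ tsupport ψ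
    · exact mul_le_mul (hC _) (hD p hp) (norm_nonneg _) hC0
    · rw [image_eq_zero_of_notMem_tsupport hp, norm_zero, zero_mul]
      exact mul_nonneg hC0 hD0
  refine ⟨hi, ?_⟩
  unfold P at hi ⊢
  rw [integral_prod _ hi, int_Pz (mpos H), smul_eq_mul, mul_inv_cancel_left₀ (mpos H).ne']
  unfold pMean
  refine setIntegral_congr_fun H.op.measurableSet fun z hz => ?_
  show _ = (1 / z.im ^ 2) • ∫ q, ψ z * G (z, q) ∂Q
  have hz' : z ∈ HP := H.sub hz
  obtain ⟨B, hB0, hB⟩ := g_bdd (H.sm n) w hn R (isCompact_singleton (x := z))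
    (Set.singleton_subset_iff.2 hz')
  have hi2 : Integrable (fun q => G (z, q)) Q :=
    Integrable.of_bound (hGm.comp measurable_prodMk_left).aestronglyMeasurable B
      (Eventually.of_forall fun q => hB (z, q) rfl)
  rw [integral_const_mul, int_Q _ hi2, smul_eq_mul, smul_eq_mul]
  have hfun : ∀ θ : ℝ, G (z, (θ, true)) + G (z, (θ, false)) =
      MvPolynomial.eval (fun j => loc (lam n) (u n) z (Complex.exp (θ * I) * w j)) R +
      MvPolynomial.eval (fun j => loc (lam n) (u n) z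
        (Complex.exp (θ * I) * starRingEnd ℂ (w j))) R := by
    intro θ
    simp only [hG, xr_true (hn _) hz', xr_false (hn _) hz']
  simp only [hfun]
  ring

end

end Pool.Agent.H800.PM
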